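import Pool.Agent.Helper87.BT.Pat

/-!
# Bounded patterns: a fixed degree decides whether all Vassiliev invariants agree
-/

namespace Pool.Agent.Helper87.BT

open Pool.Agent.Helper9.Kashaev (Piece Diagram)
open Pool.Agent.Helper77.ST

lemma vass_mono {d e : ℕ} {I : Diagram → ℚ} (h : IsVassiliev d I) (hde : d ≤ e) :
    IsVassiliev e I := ⟨h.inv, fun S hS hd => h.fin S hS (lt_of_le_of_lt hde hd)⟩

lemma finite_lists {α : Type*} {T : Set α} (hT : T.Finite) (n : ℕ) :
    {l : List α | l.length ≤ n ∧ ∀ x ∈ l, x ∈ T}.Finite := by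
  have : Finite T := hT
  refine ((List.finite_length_le T n).image (List.map Subtype.val)).subset ?_
  rintro l ⟨h1, h2⟩
  have h3 : l ∈ Set.range (List.map (Subtype.val : T → α)) := by
    rw [Set.range_list_map_coe]
    exact h2
  obtain ⟨l', rfl⟩ := h3
  exact ⟨l', by simpa using h1, rfl⟩

/-- positions at most `b`, word length at most `L` -/
def good (b L : ℕ) : Letter → Prop
  | .cup k => k ≤ b
  | .cap k => k ≤ b
  | .braid w => w.length ≤ L ∧ ∀ x ∈ w, x.1 ≤ b

lemma good_finite (b L : ℕ) : {s | good b L s}.Finite := by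
  have hw : {w : List (ℕ × Bool) | w.length ≤ L ∧ ∀ x ∈ w, x ∈ {x : ℕ × Bool | x.1 ≤ b}}.Finite := by
    refine finite_lists ?_ L
    refine ((Set.finite_Iic b).prod (Set.finite_univ (α := Bool))).subset ?_
    rintro ⟨x, y⟩ h
    exact ⟨h, Set.mem_univ _⟩
  refine ((((Set.finite_Iic b).image Letter.cup).union ((Set.finite_Iic b).image Letter.cap)).union
    (hw.image Letter.braid)).subset ?_
  intro s hs
  cases s with
  | cup k => exact Or.inl (Or.inl ⟨k, hs, rfl⟩)
  | cap k => exact Or.inl (Or.inr ⟨k, hs, rfl⟩)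
  | braid w => exact Or.inr ⟨w, hs, rfl⟩

lemma length_le_size (S : List Letter) : S.length ≤ size S := by
  induction S with
  | nil => simp [size]
  | cons s S ih =>
    have : 1 ≤ s.size := by cases s <;> simp [Letter.size]
    simp only [size, List.map_cons, List.sum_cons, List.length_cons] at ih ⊢
    omega

lemma good_of_wfL (L : ℕ) : ∀ (S : List Letter) (n m b : ℕ), wfL n S m → n + 2 * S.length ≤ b →
    size S ≤ L → ∀ s ∈ S, good b L s := by
  intro S
  induction S with
  | nil => intro n m b _ _ _ s hs; simp at hs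
  | cons t S ih =>
    intro n m b h hb hL s hs
    have hL' : t.size + size S ≤ L := by simpa [size] using hL
    rw [List.length_cons] at hb
    rcases List.mem_cons.1 hs with rfl | hs'
    · cases s with
      | cup k => have := h.1; show k ≤ b; omega
      | cap k => have := h.1; show k ≤ b; omega
      | braid w =>
        refine ⟨?_, fun x hx => ?_⟩
        · have : w.length + 1 + size S ≤ L := hL'
          omega
        · have := h.1 x hx
          omega
    · cases t with
      | cup k => exact ih _ _ b h.2 (by omega) (by omega) s hs'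
      | cap k => exact ih _ _ b h.2 (by omega) (by omega) s hs'
      | braid w => exact ih _ _ b h.2 (by omega) (by omega) s hs'

lemma patterns_finite (L : ℕ) : {S : List Letter | wfL 1 S 1 ∧ size S ≤ L}.Finite := by
  refine (finite_lists (good_finite (1 + 2 * L) L) L).subset ?_
  rintro S ⟨h1, h2⟩
  have h3 := length_le_size S
  exact ⟨by omega, good_of_wfL L S 1 1 (1 + 2 * L) h1 (by omega) h2⟩

lemma dia_congr : ∀ (S : List Letter) (a b : ℕ → ℤ), (∀ i < S.length, a i = b i) →
    dia S a = dia S b := by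
  intro S
  induction S with
  | nil => intro a b _; rfl
  | cons s S ih =>
    intro a b h
    have h1 : dia S (fun i => a (i + 1)) = dia S (fun i => b (i + 1)) := by
      refine ih _ _ fun i hi => h (i + 1) ?_
      rw [List.length_cons]; omega
    cases s with
    | cup k => simp only [dia, h1]
    | cap k => simp only [dia, h1]
    | braid w =>
      have h0 : a 0 = b 0 := h 0 (by rw [List.length_cons]; omega)
      simp only [dia, h1, h0]

lemma dia_ext {L : ℕ} (S : List Letter) (hS : S.length ≤ L) (a : ℕ → ℤ) :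
    dia S a = dia S (ext fun i : Fin L => a i) := by
  refine dia_congr S _ _ fun i hi => ?_
  unfold ext
  rw [dif_pos (by omega)]

/-- the modulus -/
noncomputable def modulus (L : ℕ) : ℕ := ∏ m ∈ Finset.range (2 * L + 2), Nm m

lemma modulus_pos (L : ℕ) : 0 < modulus L := Finset.prod_pos fun m _ => Nm_pos m

lemma Nm_dvd_modulus {L m : ℕ} (h : m ≤ 1 + 2 * L) : Nm m ∣ modulus L :=
  Finset.dvd_prod_of_mem _ (Finset.mem_range.2 (by omega))

lemma pair_level (L : ℕ) (S S' : List Letter) (hS : wfL 1 S 1) (hS' : wfL 1 S' 1)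
    (hl : S.length ≤ L) (hl' : S'.length ≤ L) (ρ ρ' : Fin L → ℤ) :
    ∃ d : ℕ, ∀ y y' : Fin L → ℤ,
      (∀ I, IsVassiliev d I → Ik I (dia S (ext fun i => ρ i + modulus L * y i)) =
        Ik I (dia S' (ext fun i => ρ' i + modulus L * y' i))) →
      ∀ e I, IsVassiliev e I → Ik I (dia S (ext fun i => ρ i + modulus L * y i)) =
        Ik I (dia S' (ext fun i => ρ' i + modulus L * y' i)) := by
  choose p hp using fun x : {x : ℕ × (Diagram → ℚ) // IsVassiliev x.1 x.2} =>
    exists_poly x.2 S hS (modulus L) (fun m hm => Nm_dvd_modulus (by omega)) ρ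
  choose p' hp' using fun x : {x : ℕ × (Diagram → ℚ) // IsVassiliev x.1 x.2} =>
    exists_poly x.2 S' hS' (modulus L) (fun m hm => Nm_dvd_modulus (by omega)) ρ'
  obtain ⟨F, hF⟩ := exists_finite_eqs (σ := Fin L ⊕ Fin L) (fun x =>
    MvPolynomial.rename Sum.inl (p x) - MvPolynomial.rename Sum.inr (p' x))
  refine ⟨F.sup fun x => x.1.1, fun y y' h e I hI => ?_⟩
  have key : ∀ x, MvPolynomial.eval (Sum.elim (fun i => (y i : ℚ)) (fun i => (y' i : ℚ)))
      (MvPolynomial.rename Sum.inl (p x) - MvPolynomial.rename Sum.inr (p' x)) =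
      Ik x.1.2 (dia S (ext fun i => ρ i + modulus L * y i)) -
        Ik x.1.2 (dia S' (ext fun i => ρ' i + modulus L * y' i)) := by
    intro x
    rw [map_sub, MvPolynomial.eval_rename, MvPolynomial.eval_rename, Sum.elim_comp_inl,
      Sum.elim_comp_inr, hp, hp']
  have h1 := hF (Sum.elim (fun i => (y i : ℚ)) (fun i => (y' i : ℚ))) (by
    intro x hx
    rw [key, h x.1.2 (vass_mono x.2 (Finset.le_sup (f := fun x => x.1.1) hx)), sub_self])
    ⟨(e, I), hI⟩
  rw [key, sub_eq_zero] at h1
  exact h1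

theorem main (L : ℕ) : ∃ d : ℕ, ∀ S S' : List Letter, wfL 1 S 1 → wfL 1 S' 1 →
    size S ≤ L → size S' ≤ L → ∀ a a' : ℕ → ℤ, IsKnot (dia S a) → IsKnot (dia S' a') →
    (∀ I, IsVassiliev d I → I (dia S a) = I (dia S' a')) →
    ∀ e I, IsVassiliev e I → I (dia S a) = I (dia S' a') := by
  classical
  have hfin := patterns_finite L
  set P := hfin.toFinset with hP
  have hmem : ∀ S, S ∈ P ↔ wfL 1 S 1 ∧ size S ≤ L := fun S => by rw [hP]; simp
  have hex : ∀ (x : {x // x ∈ P} × {x // x ∈ P}) (ρ ρ' : Fin L → Fin (modulus L)), ∃ d : ℕ,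
      ∀ y y' : Fin L → ℤ,
      (∀ I, IsVassiliev d I →
        Ik I (dia x.1.1 (ext fun i => ((ρ i : ℕ) : ℤ) + modulus L * y i)) =
        Ik I (dia x.2.1 (ext fun i => ((ρ' i : ℕ) : ℤ) + modulus L * y' i))) →
      ∀ e I, IsVassiliev e I →
        Ik I (dia x.1.1 (ext fun i => ((ρ i : ℕ) : ℤ) + modulus L * y i)) =
        Ik I (dia x.2.1 (ext fun i => ((ρ' i : ℕ) : ℤ) + modulus L * y' i)) := by
    intro x ρ ρ'
    have h1 := (hmem x.1.1).1 x.1.2
    have h2 := (hmem x.2.1).1 x.2.2
    exact pair_level L x.1.1 x.2.1 h1.1 h2.1 ((length_le_size _).trans h1.2)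
      ((length_le_size _).trans h2.2) (fun i => ((ρ i : ℕ) : ℤ)) (fun i => ((ρ' i : ℕ) : ℤ))
  choose D hD using hex
  refine ⟨Finset.univ.sup fun x => Finset.univ.sup fun ρ => Finset.univ.sup fun ρ' => D x ρ ρ',
    fun S S' hS hS' hL hL' a a' hk hk' h e I hI => ?_⟩
  have hN := modulus_pos L
  have hres : ∀ z : ℤ, (z % modulus L).toNat < modulus L := fun z => by
    have h1 := Int.emod_nonneg z (show (modulus L : ℤ) ≠ 0 by omega)
    have h2 := Int.emod_lt_of_pos z (show (0 : ℤ) < modulus L by omega)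
    omega
  have hsplit : ∀ z : ℤ, (((z % modulus L).toNat : ℕ) : ℤ) + modulus L * (z / modulus L) = z :=
    fun z => by
      rw [Int.toNat_of_nonneg (Int.emod_nonneg z (show (modulus L : ℤ) ≠ 0 by omega))]
      exact Int.emod_add_mul_ediv z (modulus L)
  have hd : ∀ (S : List Letter), size S ≤ L → ∀ a : ℕ → ℤ, dia S a =
      dia S (ext fun i : Fin L => (((a i % modulus L).toNat : ℕ) : ℤ) +
        modulus L * (a i / modulus L)) := by
    intro S hS a
    rw [dia_ext S ((length_le_size S).trans hS) a]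
    congr 2
    funext i
    rw [hsplit]
  set x : {x // x ∈ P} × {x // x ∈ P} := (⟨S, (hmem S).2 ⟨hS, hL⟩⟩, ⟨S', (hmem S').2 ⟨hS', hL'⟩⟩)
    with hx
  have h1 := hD x (fun i => ⟨(a i % modulus L).toNat, hres _⟩)
    (fun i => ⟨(a' i % modulus L).toNat, hres _⟩) (fun i => a i / modulus L)
    (fun i => a' i / modulus L)
  have e1 := hd S hL a
  have e2 := hd S' hL' a'
  have hIk : ∀ J : Diagram → ℚ, Ik J (dia S a) = J (dia S a) := fun J => if_pos hk
  have hIk' : ∀ J : Diagram → ℚ, Ik J (dia S' a') = J (dia S' a') := fun J => if_pos hk'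
  have h2 := h1 (by
    intro J hJ
    show Ik J (dia S _) = Ik J (dia S' _)
    rw [← e1, ← e2, hIk, hIk']
    refine h J (vass_mono hJ ?_)
    refine le_trans ?_ (Finset.le_sup (Finset.mem_univ x))
    refine le_trans ?_ (Finset.le_sup (Finset.mem_univ
      (fun i : Fin L => (⟨(a i % modulus L).toNat, hres _⟩ : Fin (modulus L)))))
    exact Finset.le_sup (f := fun ρ' => D x _ ρ') (Finset.mem_univ
      (fun i : Fin L => (⟨(a' i % modulus L).toNat, hres _⟩ : Fin (modulus L))))) e I hI
  have h3 : Ik I (dia S a) = Ik I (dia S' a') := by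
    rw [e1, e2]
    exact h2
  rwa [hIk, hIk'] at h3

end Pool.Agent.Helper87.BT
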