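import Pool.Agent.Helper77.ST.Defs

/-!
# Knot diagrams with few braid powers: definitions

Only definitions.  A pattern is a list of letters; a letter is a minimum, a maximum, or a braid word,
of which an arbitrary power is taken.  Knot diagrams, isotopy and Vassiliev invariants are those of
`Pool.Agent.Helper77.ST.Defs`.
-/

namespace Pool.Agent.Helper87.BT

open Pool.Agent.Helper9.Kashaev (Piece Diagram)

/-- A letter of a pattern: a minimum or a maximum with `k` strands to its left, or a braid word,
a list of crossings, each with its sign (`true` is positive) and the number of strands to its left. -/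
inductive Letter
  | cup (k : ℕ)
  | cap (k : ℕ)
  | braid (w : List (ℕ × Bool))

/-- the size of a letter -/
def Letter.size : Letter → ℕ
  | .cup _ => 1
  | .cap _ => 1
  | .braid w => w.length + 1

/-- the size of a pattern -/
def size (S : List Letter) : ℕ := (S.map Letter.size).sum

/-- the diagram of a braid word -/
def word (w : List (ℕ × Bool)) : Diagram := w.map fun x => (x.1, if x.2 then .pos else .neg)

/-- the inverse of a braid word -/
def inv (w : List (ℕ × Bool)) : List (ℕ × Bool) := (w.map fun x => (x.1, !x.2)).reverse

/-- the diagram of the `a`-th power of a braid word -/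
def pw (w : List (ℕ × Bool)) (a : ℤ) : Diagram :=
  (List.replicate a.natAbs (word (if 0 ≤ a then w else inv w))).flatten

/-- the diagram of a pattern; the braid word which is the letter number `i` is raised to the power
`a i` -/
def dia : List Letter → (ℕ → ℤ) → Diagram
  | [], _ => []
  | .cup k :: S, a => (k, .cup) :: dia S fun i => a (i + 1)
  | .cap k :: S, a => (k, .cap) :: dia S fun i => a (i + 1)
  | .braid w :: S, a => pw w (a 0) ++ dia S fun i => a (i + 1)

/-- the pattern goes from `n` to `m` strands, and all its crossings are at possible positions -/
def wfL : ℕ → List Letter → ℕ → Prop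
  | n, [], m => n = m
  | n, .cup k :: S, m => k ≤ n ∧ wfL (n + 2) S m
  | n, .cap k :: S, m => k + 2 ≤ n ∧ wfL (n - 2) S m
  | n, .braid w :: S, m => (∀ x ∈ w, x.1 + 2 ≤ n) ∧ wfL n S m

end Pool.Agent.Helper87.BT
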