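import Pool.Agent.Helper77.ST.KWf
import Pool.Agent.Helper87.BT.Defs

/-!
# The components of a diagram do not change under moves of crossings
-/

namespace Pool.Agent.Helper87.BT

open Pool.Agent.Helper9.Kashaev (Piece Diagram)
open Pool.Agent.Helper77.ST

/-- replacing a piece of a diagram by one that acts in the same way on `n` strands -/
theorem arc_prefix {n : ℕ} {X Y : Diagram}
    (h : ∀ (c : ℕ) (L : List ℕ), L.length = n → (Arc c L X ↔ Arc c L Y)) :
    ∀ (A : Diagram) (c : ℕ) (L : List ℕ), wf L.length A n →
      (Arc c L (A ++ X) ↔ Arc c L (A ++ Y)) := by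
  intro A
  induction A with
  | nil => intro c L hL; exact h c L hL
  | cons s A ih =>
    obtain ⟨k, p⟩ := s
    intro c L hw
    cases p with
    | cup =>
      obtain ⟨h1, h2⟩ := hw
      have e : (L.take k ++ c :: c :: L.drop k).length = L.length + 2 := by
        simp only [List.length_append, List.length_cons, List.length_take, List.length_drop]
        omega
      rw [← e] at h2
      exact and_congr_right fun _ => ih _ _ h2
    | cap =>
      obtain ⟨h1, h2⟩ := hw
      have hR : ∃ x y R, L.drop k = x :: y :: R := by
        have hl : 2 ≤ (L.drop k).length := by rw [List.length_drop]; omega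
        match hd : L.drop k with
        | [] => rw [hd] at hl; simp at hl
        | [x] => rw [hd] at hl; simp at hl
        | x :: y :: R => exact ⟨x, y, R, rfl⟩
      obtain ⟨x, y, R, hR⟩ := hR
      simp only [List.cons_append, Arc, hR]
      refine and_congr_right fun _ => ih _ _ ?_
      have hl := congrArg List.length hR
      simp only [List.length_drop, List.length_cons] at hl
      have e : ((L.take k ++ R).map fun z => if z = y then x else z).length = L.length - 2 := by
        simp only [List.length_map, List.length_append, List.length_take]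
        omega
      rw [e]
      exact h2
    | pos =>
      obtain ⟨h1, h2⟩ := hw
      have hR : ∃ x y R, L.drop k = x :: y :: R := by
        have hl : 2 ≤ (L.drop k).length := by rw [List.length_drop]; omega
        match hd : L.drop k with
        | [] => rw [hd] at hl; simp at hl
        | [x] => rw [hd] at hl; simp at hl
        | x :: y :: R => exact ⟨x, y, R, rfl⟩
      obtain ⟨x, y, R, hR⟩ := hR
      simp only [List.cons_append, Arc, hR]
      refine ih _ _ ?_
      have hl := congrArg List.length hR
      simp only [List.length_drop, List.length_cons] at hl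
      have e : (L.take k ++ y :: x :: R).length = L.length := by
        simp only [List.length_append, List.length_cons, List.length_take]
        omega
      rw [e]
      exact h2
    | neg =>
      obtain ⟨h1, h2⟩ := hw
      have hR : ∃ x y R, L.drop k = x :: y :: R := by
        have hl : 2 ≤ (L.drop k).length := by rw [List.length_drop]; omega
        match hd : L.drop k with
        | [] => rw [hd] at hl; simp at hl
        | [x] => rw [hd] at hl; simp at hl
        | x :: y :: R => exact ⟨x, y, R, rfl⟩
      obtain ⟨x, y, R, hR⟩ := hR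
      simp only [List.cons_append, Arc, hR]
      refine ih _ _ ?_
      have hl := congrArg List.length hR
      simp only [List.length_drop, List.length_cons] at hl
      have e : (L.take k ++ y :: x :: R).length = L.length := by
        simp only [List.length_append, List.length_cons, List.length_take]
        omega
      rw [e]
      exact h2

/-- the sign of a crossing does not matter -/
theorem arc_sign (k : ℕ) (X : Diagram) : ∀ (A : Diagram) (c : ℕ) (L : List ℕ),
    Arc c L (A ++ (k, .neg) :: X) ↔ Arc c L (A ++ (k, .pos) :: X) := by
  intro A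
  induction A with
  | nil => intro c L; exact Iff.rfl
  | cons s A ih =>
    obtain ⟨j, p⟩ := s
    intro c L
    cases p with
    | cup => exact and_congr_right fun _ => ih _ _
    | cap =>
      simp only [List.cons_append, Arc]
      split
      · exact and_congr_right fun _ => ih _ _
      · exact Iff.rfl
    | pos =>
      simp only [List.cons_append, Arc]
      split
      · exact ih _ _
      · exact Iff.rfl
    | neg =>
      simp only [List.cons_append, Arc]
      split
      · exact ih _ _
      · exact Iff.rfl

/-- a crossing exchanges two labels -/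
theorem arc_cr (b : Bool) (c : ℕ) (P : List ℕ) (x y : ℕ) (R : List ℕ) (X : Diagram) :
    Arc c (P ++ x :: y :: R) ((P.length, if b then .pos else .neg) :: X) ↔
      Arc c (P ++ y :: x :: R) X := by
  cases b with
  | true => simp [Arc, List.drop_append, List.take_append]
  | false => simp [Arc, List.drop_append, List.take_append]

lemma split2 {L : List ℕ} {k : ℕ} (h : k + 2 ≤ L.length) :
    ∃ (P : List ℕ) (x y : ℕ) (R : List ℕ), L = P ++ x :: y :: R ∧ P.length = k := by
  have hl : 2 ≤ (L.drop k).length := by rw [List.length_drop]; omega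
  match hd : L.drop k with
  | [] => rw [hd] at hl; simp at hl
  | [x] => rw [hd] at hl; simp at hl
  | x :: y :: R =>
    refine ⟨L.take k, x, y, R, ?_, by rw [List.length_take]; omega⟩
    rw [← hd, List.take_append_drop]

lemma split3 {L : List ℕ} {k : ℕ} (h : k + 3 ≤ L.length) :
    ∃ (P : List ℕ) (x y z : ℕ) (R : List ℕ), L = P ++ x :: y :: z :: R ∧ P.length = k := by
  obtain ⟨P, x, y, R, rfl, hP⟩ := split2 (L := L) (k := k) (by omega)
  match R with
  | [] => simp at h; omega
  | z :: R => exact ⟨P, x, y, z, R, rfl, hP⟩

theorem arc_r2 {k n : ℕ} (hk : k + 2 ≤ n) (b b' : Bool) (c : ℕ) (L : List ℕ) (hL : L.length = n)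
    (X : Diagram) :
    Arc c L ((k, if b then Piece.pos else .neg) :: (k, if b' then Piece.pos else .neg) :: X) ↔
      Arc c L X := by
  obtain ⟨P, x, y, R, rfl, hP⟩ := split2 (L := L) (k := k) (by omega)
  subst hP
  rw [arc_cr, arc_cr]

theorem arc_r3 {k n : ℕ} (hk : k + 3 ≤ n) (c : ℕ) (L : List ℕ) (hL : L.length = n)
    (X : Diagram) :
    Arc c L ((k, Piece.pos) :: (k + 1, Piece.pos) :: (k, Piece.pos) :: X) ↔
      Arc c L ((k + 1, Piece.pos) :: (k, Piece.pos) :: (k + 1, Piece.pos) :: X) := by
  obtain ⟨P, x, y, z, R, rfl, hP⟩ := split3 (L := L) (k := k) (by omega)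
  subst hP
  have h1 : ∀ (x y : ℕ) (R : List ℕ) (X : Diagram),
      Arc c (P ++ x :: y :: R) ((P.length, Piece.pos) :: X) ↔ Arc c (P ++ y :: x :: R) X :=
    fun x y R X => arc_cr true c P x y R X
  have h2 : ∀ (t x y : ℕ) (R : List ℕ) (X : Diagram),
      Arc c (P ++ t :: x :: y :: R) ((P.length + 1, Piece.pos) :: X) ↔
        Arc c (P ++ t :: y :: x :: R) X := by
    intro t x y R X
    have := arc_cr true c (P ++ [t]) x y R X
    simpa using this
  rw [h1, h2, h1, h2, h1, h2]

theorem arc_far {k l n : ℕ} (hk : k + 2 ≤ l) (hl : l + 2 ≤ n) (b b' : Bool) (c : ℕ) (L : List ℕ)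
    (hL : L.length = n) (X : Diagram) :
    Arc c L ((k, if b then Piece.pos else .neg) :: (l, if b' then Piece.pos else .neg) :: X) ↔
      Arc c L ((l, if b' then Piece.pos else .neg) :: (k, if b then Piece.pos else .neg) :: X) := by
  obtain ⟨P, x, y, R, rfl, hP⟩ := split2 (L := L) (k := k) (by omega)
  have hR : (l - (k + 2)) + 2 ≤ R.length := by
    simp at hL
    omega
  obtain ⟨Q, u, v, R, rfl, hQ⟩ := split2 hR
  subst hP
  have e : l = (P ++ x :: y :: Q).length := by simp; omega
  have e' : l = (P ++ y :: x :: Q).length := by simp; omega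
  have h1 : ∀ (u v : ℕ), Arc c (P ++ x :: y :: (Q ++ u :: v :: R))
      ((P.length, if b then Piece.pos else .neg) :: (l, if b' then Piece.pos else .neg) :: X) ↔
      Arc c (P ++ y :: x :: (Q ++ v :: u :: R)) X := by
    intro u v
    rw [arc_cr]
    have := arc_cr b' c (P ++ y :: x :: Q) u v R X
    rw [← e'] at this
    simpa using this
  rw [h1]
  have h2 := arc_cr b' c (P ++ x :: y :: Q) u v R ((P.length, if b then Piece.pos else .neg) :: X)
  rw [← e] at h2
  have h3 : P ++ x :: y :: (Q ++ u :: v :: R) = (P ++ x :: y :: Q) ++ u :: v :: R := by simp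
  rw [h3, h2]
  have h4 : (P ++ x :: y :: Q) ++ v :: u :: R = P ++ x :: y :: (Q ++ v :: u :: R) := by simp
  rw [h4, arc_cr]

end Pool.Agent.Helper87.BT
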