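import Mathlib

/-!
# A group generated by elements with the Coxeter relations of type A is finite
-/

namespace Pool.Agent.Helper87.BT

variable {G : Type*} [Group G]

/-- `s (m - 1) * s (m - 2) * ... * s (m - j)` -/
def cx (s : ℕ → G) (m : ℕ) : ℕ → G
  | 0 => 1
  | j + 1 => cx s m j * s (m - (j + 1))

theorem cox_finite (s : ℕ → G) (m : ℕ) (h1 : ∀ i, i < m → s i * s i = 1)
    (h2 : ∀ i, i + 1 < m → s i * s (i + 1) * s i = s (i + 1) * s i * s (i + 1))
    (h3 : ∀ i j, j < m → i + 2 ≤ j → s i * s j = s j * s i) :
    ((Subgroup.closure (s '' Set.Iio m) : Subgroup G) : Set G).Finite := by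
  induction m with
  | zero => simp
  | succ m ih =>
    have ih' := ih (fun i hi => h1 i (by omega)) (fun i hi => h2 i (by omega))
      (fun i j hj hij => h3 i j (by omega) hij)
    set H := (Subgroup.closure (s '' Set.Iio m) : Subgroup G) with hH
    have hmem : ∀ i, i < m → s i ∈ H := fun i hi =>
      Subgroup.subset_closure ⟨i, hi, rfl⟩
    -- commutation of `cx` with small generators
    have hfar : ∀ j, j ≤ m + 1 → ∀ i, i + j + 1 ≤ m → cx s (m + 1) j * s i = s i * cx s (m + 1) j := by
      intro j
      induction j with
      | zero => intro _ i _; simp [cx]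
      | succ j ihj =>
        intro hj i hi
        have e1 := ihj (by omega) i (by omega)
        have e2 := h3 i (m + 1 - (j + 1)) (by omega) (by omega)
        rw [cx, mul_assoc, ← e2, ← mul_assoc, e1, mul_assoc]
    -- commutation with large generators
    have hbig : ∀ j, j ≤ m + 1 → ∀ i, m + 1 < i + j → i < m + 1 → 1 ≤ i →
        m + 2 ≤ i + j → cx s (m + 1) j * s i = s (i - 1) * cx s (m + 1) j := by
      intro j
      induction j with
      | zero => intro _ i h4 h5; omega
      | succ j ihj =>
        intro hj i h4 h5 h6 h7
        by_cases h8 : m + 2 = i + (j + 1)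
        · -- `i = m + 1 - j`, the last letter is `s (i - 1)`, the one before it is `s i`
          obtain ⟨j', rfl⟩ : ∃ j', j = j' + 1 := ⟨j - 1, by omega⟩
          have e1 : m + 1 - (j' + 1 + 1) = i - 1 := by omega
          have e2 : m + 1 - (j' + 1) = i := by omega
          have e3 := hfar j' (by omega) (i - 1) (by omega)
          have e4 := h2 (i - 1) (by omega)
          have e5 : i - 1 + 1 = i := by omega
          rw [e5] at e4
          rw [cx, cx, e1, e2]
          calc cx s (m + 1) j' * s i * s (i - 1) * s i
              = cx s (m + 1) j' * (s i * s (i - 1) * s i) := by group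
            _ = cx s (m + 1) j' * (s (i - 1) * s i * s (i - 1)) := by rw [e4]
            _ = (cx s (m + 1) j' * s (i - 1)) * s i * s (i - 1) := by group
            _ = (s (i - 1) * cx s (m + 1) j') * s i * s (i - 1) := by rw [e3]
            _ = s (i - 1) * (cx s (m + 1) j' * s i * s (i - 1)) := by group
        · have e1 := ihj (by omega) i (by omega) h5 h6 (by omega)
          have e2 := h3 (m + 1 - (j + 1)) i (by omega) (by omega)
          rw [cx, mul_assoc, e2, ← mul_assoc, e1, mul_assoc]
    -- the finite set
    set T : Set G := ⋃ j ∈ Set.Iic (m + 1), (fun h => h * cx s (m + 1) j) '' (H : Set G) with hT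
    have hTfin : T.Finite := by
      refine Set.Finite.biUnion (Set.finite_Iic _) fun j _ => ih'.image _
    have hmul : ∀ x ∈ T, ∀ i, i < m + 1 → x * s i ∈ T := by
      intro x hx i hi
      simp only [hT, Set.mem_iUnion, Set.mem_Iic, Set.mem_image] at hx ⊢
      obtain ⟨j, hj, h, hh, rfl⟩ := hx
      rcases lt_trichotomy (i + j + 1) (m + 1) with h4 | h4 | h4
      · refine ⟨j, hj, h * s i, H.mul_mem hh (hmem i (by omega)), ?_⟩
        rw [mul_assoc, ← hfar j hj i (by omega), ← mul_assoc]
      · refine ⟨j + 1, by omega, h, hh, ?_⟩
        have e1 : m + 1 - (j + 1) = i := by omega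
        rw [cx, e1, mul_assoc]
      · rcases Nat.lt_or_ge (m + 1) (i + j) with h5 | h5
        · refine ⟨j, hj, h * s (i - 1), H.mul_mem hh (hmem _ (by omega)), ?_⟩
          rw [mul_assoc, ← hbig j hj i h5 hi (by omega) (by omega), ← mul_assoc]
        · -- `i + j = m + 1`
          obtain ⟨j', rfl⟩ : ∃ j', j = j' + 1 := ⟨j - 1, by omega⟩
          refine ⟨j', by omega, h, hh, ?_⟩
          have e1 : m + 1 - (j' + 1) = i := by omega
          rw [cx, e1]
          have := h1 i hi
          calc h * cx s (m + 1) j' = h * cx s (m + 1) j' * (s i * s i) := by rw [this, mul_one]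
            _ = _ := by group
    have hone : (1 : G) ∈ T := by
      simp only [hT, Set.mem_iUnion, Set.mem_Iic, Set.mem_image]
      exact ⟨0, by omega, 1, H.one_mem, by simp [cx]⟩
    refine hTfin.subset ?_
    intro x hx
    have hcl : x ∈ Subgroup.closure (s '' Set.Iio (m + 1)) := hx
    -- every element of the closure lies in `T`
    suffices ∀ y ∈ T, y * x ∈ T by simpa using this 1 hone
    refine Subgroup.closure_induction (p := fun x _ => ∀ y ∈ T, y * x ∈ T) ?_ ?_ ?_ ?_ hcl
    · rintro _ ⟨i, hi, rfl⟩ y hy
      exact hmul y hy i hi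
    · intro y hy
      simpa using hy
    · intro a b _ _ ha hb y hy
      rw [← mul_assoc]
      exact hb _ (ha _ hy)
    · intro a _ ha y hy
      -- `T` is finite and `y ↦ y * a` maps it into itself injectively, so it is onto
      have hmap : Set.MapsTo (fun y => y * a) T T := fun y hy => ha y hy
      have hsurj : Set.SurjOn (fun y => y * a) T T := by
        have : Finite T := hTfin
        have hinj : Function.Injective (hmap.restrict (fun y => y * a) T T) := by
          intro u v huv
          have := congrArg Subtype.val huv
          exact Subtype.ext (mul_right_cancel this)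
        have hs := Finite.surjective_of_injective hinj
        intro z hz
        obtain ⟨u, hu⟩ := hs ⟨z, hz⟩
        exact ⟨u, u.2, congrArg Subtype.val hu⟩
      obtain ⟨z, hz, hzy⟩ := hsurj hy
      have : y * a⁻¹ = z := by
        rw [← hzy]
        simp
      rw [this]
      exact hz

end Pool.Agent.Helper87.BT
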