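import Mathlib
import Pool.Agent.Helper87.BT.Cox

/-!
# Functions of finite degree on the free group, modulo the braid relations

`V m r`: functions on the free group all of whose alternating sums over `r` double points vanish.
`Ga m`: the normal subgroup generated by the braid relators and the squares of the generators; its
quotient is finite, and `w ∈ Ga m` implies that `x ↦ ψ (w ^ x * h)` is killed by `r` differences.
-/

namespace Pool.Agent.Helper87.BT

open FreeGroup

/-- functions all of whose `r`-fold alternating sums vanish -/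
def V (m : ℕ) : ℕ → Set (FreeGroup (Fin m) → ℚ)
  | 0 => {ψ | ∀ h, ψ h = 0}
  | r + 1 => {ψ | ∀ (g : FreeGroup (Fin m)) (k : Fin m),
      (fun h => ψ (g * of k * h) - ψ (g * (of k)⁻¹ * h)) ∈ V m r}

/-- the braid relators -/
def Rl (m : ℕ) : Set (FreeGroup (Fin m)) :=
  {x | ∃ i j : Fin m, (i : ℕ) + 1 = j ∧ x = of i * of j * of i * (of j * of i * of j)⁻¹} ∪
  {x | ∃ i j : Fin m, (i : ℕ) + 2 ≤ j ∧ x = of i * of j * (of j * of i)⁻¹}

/-- functions that respect the braid relations -/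
def Iv (m : ℕ) : Set (FreeGroup (Fin m) → ℚ) :=
  {ψ | ∀ g h, ∀ ρ ∈ Rl m, ψ (g * ρ * h) = ψ (g * h)}

variable {m : ℕ}

lemma V_sub : ∀ (r : ℕ) (ψ χ : FreeGroup (Fin m) → ℚ), ψ ∈ V m r → χ ∈ V m r →
    (fun h => ψ h - χ h) ∈ V m r := by
  intro r
  induction r with
  | zero => intro ψ χ h1 h2 h; simp [h1 h, h2 h]
  | succ r ih =>
    intro ψ χ h1 h2 g k
    have := ih _ _ (h1 g k) (h2 g k)
    have e : (fun h => (ψ (g * of k * h) - χ (g * of k * h)) -
        (ψ (g * (of k)⁻¹ * h) - χ (g * (of k)⁻¹ * h))) =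
        fun h => (ψ (g * of k * h) - ψ (g * (of k)⁻¹ * h)) -
          (χ (g * of k * h) - χ (g * (of k)⁻¹ * h)) := by
      funext h
      ring
    rw [e]
    exact this

lemma V_zero : ∀ (r : ℕ), (fun _ => (0 : ℚ)) ∈ V m r := by
  intro r
  induction r with
  | zero => intro h; rfl
  | succ r ih => intro g k; simpa using ih

lemma V_neg (r : ℕ) (ψ : FreeGroup (Fin m) → ℚ) (h : ψ ∈ V m r) : (fun h => - ψ h) ∈ V m r := by
  have := V_sub r _ _ (V_zero r) h
  simpa using this

lemma V_add (r : ℕ) (ψ χ : FreeGroup (Fin m) → ℚ) (h1 : ψ ∈ V m r) (h2 : χ ∈ V m r) :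
    (fun h => ψ h + χ h) ∈ V m r := by
  have := V_sub r _ _ h1 (V_neg r _ h2)
  simpa using this

lemma V_left : ∀ (r : ℕ) (ψ : FreeGroup (Fin m) → ℚ) (_ : ψ ∈ V m r) (x : FreeGroup (Fin m)),
    (fun h => ψ (x * h)) ∈ V m r := by
  intro r
  cases r with
  | zero => intro ψ h1 x h; exact h1 _
  | succ r =>
    intro ψ h1 x g k
    have := h1 (x * g) k
    simpa only [mul_assoc] using this

lemma Iv_left (ψ : FreeGroup (Fin m) → ℚ) (h : ψ ∈ Iv m) (x : FreeGroup (Fin m)) :
    (fun h => ψ (x * h)) ∈ Iv m := by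
  intro g h' ρ hρ
  have := h (x * g) h' ρ hρ
  simpa only [mul_assoc] using this

lemma Iv_sub (ψ χ : FreeGroup (Fin m) → ℚ) (h1 : ψ ∈ Iv m) (h2 : χ ∈ Iv m) :
    (fun h => ψ h - χ h) ∈ Iv m := by
  intro g h' ρ hρ
  have e1 := h1 g h' ρ hρ
  have e2 := h2 g h' ρ hρ
  simp only [e1, e2]

/-- the elements which are `1` modulo double points -/
def Gm (m : ℕ) : Subgroup (FreeGroup (Fin m)) where
  carrier := {w | ∀ r, ∀ ψ ∈ V m (r + 1), ψ ∈ Iv m → (fun h => ψ (w * h) - ψ h) ∈ V m r}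
  one_mem' := by
    intro r ψ _ _
    simpa using V_zero r
  mul_mem' := by
    intro a b ha hb r ψ h1 h2
    have e1 := V_left r _ (ha r ψ h1 h2) b
    have e2 := hb r ψ h1 h2
    have e3 := V_add r _ _ e1 e2
    have e4 : (fun h => (ψ (a * (b * h)) - ψ (b * h)) + (ψ (b * h) - ψ h)) =
        fun h => ψ (a * b * h) - ψ h := by
      funext h
      rw [mul_assoc]
      ring
    rw [e4] at e3
    exact e3
  inv_mem' := by
    intro a ha r ψ h1 h2
    have e1 := V_left r _ (V_neg r _ (ha r ψ h1 h2)) a⁻¹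
    have e4 : (fun h => -(ψ (a * (a⁻¹ * h)) - ψ (a⁻¹ * h))) = fun h => ψ (a⁻¹ * h) - ψ h := by
      funext h
      rw [mul_inv_cancel_left]
      ring
    rw [e4] at e1
    exact e1

lemma Gm_normal : (Gm m).Normal := by
  constructor
  intro w hw x r ψ h1 h2
  have e1 := hw r _ (V_left (r + 1) ψ h1 x) (Iv_left ψ h2 x)
  have e2 := V_left r _ e1 x⁻¹
  have e3 : (fun h => ψ (x * (w * (x⁻¹ * h))) - ψ (x * (x⁻¹ * h))) =
      fun h => ψ (x * w * x⁻¹ * h) - ψ h := by
    funext h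
    rw [mul_inv_cancel_left]
    simp only [mul_assoc]
  rw [e3] at e2
  exact e2

/-- the relators and the squares of the generators -/
def Sq (m : ℕ) : Set (FreeGroup (Fin m)) := Rl m ∪ {x | ∃ k : Fin m, x = of k * of k}

/-- the normal subgroup of the pure braid words -/
def Ga (m : ℕ) : Subgroup (FreeGroup (Fin m)) := Subgroup.normalClosure (Sq m)

instance : (Ga m).Normal := Subgroup.normalClosure_normal

lemma Ga_le : Ga m ≤ Gm m := by
  have : (Gm m).Normal := Gm_normal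
  refine Subgroup.normalClosure_le_normal ?_
  rintro x (hx | ⟨k, rfl⟩)
  · intro r ψ _ h2
    have e : (fun h => ψ (x * h) - ψ h) = fun _ => 0 := by
      funext h
      have := h2 1 h x hx
      rw [one_mul, one_mul] at this
      rw [this, sub_self]
    rw [e]
    exact V_zero r
  · intro r ψ h1 _
    have := h1 (of k) k
    simpa using this

theorem fwd_zero {w : FreeGroup (Fin m)} (hw : w ∈ Ga m) : ∀ (r : ℕ) (ψ : FreeGroup (Fin m) → ℚ),
    ψ ∈ V m r → ψ ∈ Iv m → ∀ (h : FreeGroup (Fin m)) (x : ℤ),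
      (fwdDiff (1 : ℤ))^[r] (fun x : ℤ => ψ (w ^ x * h)) x = 0 := by
  intro r
  induction r with
  | zero => intro ψ h1 _ h x; exact h1 _
  | succ r ih =>
    intro ψ h1 h2 h x
    have e1 := Ga_le hw r ψ h1 h2
    have e2 := ih _ e1 (Iv_sub _ _ (Iv_left ψ h2 w) h2) h x
    rw [Function.iterate_succ_apply]
    have e3 : fwdDiff (1 : ℤ) (fun x : ℤ => ψ (w ^ x * h)) =
        fun x : ℤ => ψ (w * (w ^ x * h)) - ψ (w ^ x * h) := by
      funext x
      simp only [fwdDiff]
      rw [← mul_assoc, ← zpow_one_add, add_comm]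
    rw [e3]
    exact e2

/-- in the form used for polynomials in several variables -/
theorem diff_zero {w : FreeGroup (Fin m)} (hw : w ∈ Ga m) (r : ℕ) (ψ : FreeGroup (Fin m) → ℚ)
    (h1 : ψ ∈ V m (r + 1)) (h2 : ψ ∈ Iv m) (h : FreeGroup (Fin m)) (y : ℤ) :
    ∑ k ∈ Finset.range (r + 2), (-1 : ℚ) ^ k * (r + 1).choose k * ψ (w ^ (y - k) * h) = 0 := by
  have e1 := fwd_zero hw (r + 1) ψ h1 h2 h (y - (r + 1))
  rw [fwdDiff_iter_eq_sum_shift] at e1
  rw [← e1, ← Finset.sum_range_reflect]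
  refine Finset.sum_congr rfl fun k hk => ?_
  have hk' : k ≤ r + 1 := by
    have := Finset.mem_range.1 hk
    omega
  have e1 : r + 2 - 1 - k = r + 1 - k := by omega
  rw [e1, Nat.choose_symm hk']
  have e3 : y - ((r + 1 - k : ℕ) : ℤ) = y - (r + 1) + k • (1 : ℤ) := by
    rw [nsmul_eq_mul, mul_one]
    push_cast [hk']
    ring
  rw [e3]
  simp [zsmul_eq_mul]

theorem fin_quot : Finite (FreeGroup (Fin m) ⧸ Ga m) := by
  classical
  let s : ℕ → FreeGroup (Fin m) ⧸ Ga m := fun i =>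
    if h : i < m then QuotientGroup.mk (of ⟨i, h⟩) else 1
  have hrel : ∀ x ∈ Sq m, (QuotientGroup.mk x : FreeGroup (Fin m) ⧸ Ga m) = 1 := fun x hx =>
    (QuotientGroup.eq_one_iff x).2 (Subgroup.subset_normalClosure hx)
  have hs : ∀ i (h : i < m), s i = QuotientGroup.mk (of ⟨i, h⟩) := fun i h => by
    simp only [s, dif_pos h]
  have hfin := cox_finite s m
    (by
      intro i hi
      rw [hs i hi, ← QuotientGroup.mk_mul]
      exact hrel _ (Or.inr ⟨_, rfl⟩))
    (by
      intro i hi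
      rw [hs i (by omega), hs (i + 1) hi]
      have := hrel _ (Or.inl (Or.inl ⟨⟨i, by omega⟩, ⟨i + 1, hi⟩, rfl, rfl⟩))
      rw [QuotientGroup.mk_mul, QuotientGroup.mk_inv, mul_inv_eq_one] at this
      simpa only [QuotientGroup.mk_mul] using this)
    (by
      intro i j hj hij
      rw [hs i (by omega), hs j hj]
      have := hrel _ (Or.inl (Or.inr ⟨⟨i, by omega⟩, ⟨j, hj⟩, hij, rfl⟩))
      rw [QuotientGroup.mk_mul, QuotientGroup.mk_inv, mul_inv_eq_one] at this
      simpa only [QuotientGroup.mk_mul] using this)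
  have htop : (Subgroup.closure (s '' Set.Iio m) : Subgroup (FreeGroup (Fin m) ⧸ Ga m)) = ⊤ := by
    rw [eq_top_iff]
    intro x _
    obtain ⟨g, rfl⟩ := QuotientGroup.mk_surjective x
    refine FreeGroup.induction_on (C := fun g => (QuotientGroup.mk g : FreeGroup (Fin m) ⧸ Ga m) ∈
      (Subgroup.closure (s '' Set.Iio m) : Subgroup (FreeGroup (Fin m) ⧸ Ga m))) g ?_ ?_ ?_ ?_
    · exact Subgroup.one_mem _
    · intro k
      exact Subgroup.subset_closure ⟨k, k.2, hs k k.2⟩
    · intro k ih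
      rw [QuotientGroup.mk_inv]
      exact Subgroup.inv_mem _ ih
    · intro a b iha ihb
      rw [QuotientGroup.mk_mul]
      exact Subgroup.mul_mem _ iha ihb
  rw [htop] at hfin
  exact Set.finite_univ_iff.1 (by simpa using hfin)

/-- the order of the quotient -/
noncomputable def Nm (m : ℕ) : ℕ := Nat.card (FreeGroup (Fin m) ⧸ Ga m)

lemma Nm_pos (m : ℕ) : 0 < Nm m := by
  have := fin_quot (m := m)
  exact Nat.card_pos

lemma pow_mem (g : FreeGroup (Fin m)) {N : ℕ} (hN : Nm m ∣ N) : g ^ N ∈ Ga m := by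
  obtain ⟨q, rfl⟩ := hN
  rw [pow_mul]
  refine Subgroup.pow_mem _ ?_ q
  rw [← QuotientGroup.eq_one_iff, QuotientGroup.mk_pow]
  exact pow_card_eq_one'

end Pool.Agent.Helper87.BT
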