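import Pool.Agent.Helper77.ST.GWf
import Pool.Agent.Helper87.BT.Arcs
import Pool.Agent.Helper87.BT.Vs

/-!
# The function on braid words given by a Vassiliev invariant
-/

namespace Pool.Agent.Helper87.BT

open Pool.Agent.Helper9.Kashaev (Piece Diagram)
open Pool.Agent.Helper77.ST
open FreeGroup

open Classical in
/-- a function on knots, extended by `0` -/
noncomputable def Ik (I : Diagram → ℚ) (D : Diagram) : ℚ := if IsKnot D then I D else 0

/-- the diagram of a word in the generators -/
def dw {m : ℕ} (L : List (Fin m × Bool)) : Diagram :=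
  L.map fun x => ((x.1 : ℕ), if x.2 then Piece.pos else Piece.neg)

lemma dw_append {m : ℕ} (L L' : List (Fin m × Bool)) : dw (L ++ L') = dw L ++ dw L' := by
  simp [dw]

lemma wf_dw {m n : ℕ} (hm : m + 1 ≤ n) (L : List (Fin m × Bool)) : wf n (dw L) n := by
  induction L with
  | nil => rfl
  | cons x L ih =>
    obtain ⟨k, b⟩ := x
    have hk : (k : ℕ) + 2 ≤ n := by have := k.2; omega
    cases b
    · exact ⟨hk, ih⟩
    · exact ⟨hk, ih⟩

/-- an alternating sum of a function extended by zero -/
lemma alt_Ik_knot (I : Diagram → ℚ) : ∀ (S : SDiagram) (A : Diagram), IsKnot (A ++ resolve S) →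
    alt (Ik I) A S = alt I A S := by
  intro S
  induction S with
  | nil =>
    intro A h
    rw [resolve, List.append_nil] at h
    show Ik I A = I A
    unfold Ik
    rw [if_pos h]
  | cons s S ih =>
    obtain ⟨k, p⟩ := s
    intro A h
    cases p with
    | reg p =>
      refine ih (A ++ [(k, p)]) ?_
      simpa [resolve] using h
    | dbl =>
      have h1 : IsKnot ((A ++ [(k, Piece.pos)]) ++ resolve S) := by simpa [resolve] using h
      have h2 : IsKnot ((A ++ [(k, Piece.neg)]) ++ resolve S) := by
        have := (arc_sign k (resolve S) A 1 [0]).2 (by simpa [resolve, IsKnot] using h)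
        simpa [IsKnot] using this
      show alt (Ik I) _ S - alt (Ik I) _ S = alt I _ S - alt I _ S
      rw [ih _ h1, ih _ h2]

lemma alt_Ik_not (I : Diagram → ℚ) : ∀ (S : SDiagram) (A : Diagram), ¬ IsKnot (A ++ resolve S) →
    alt (Ik I) A S = 0 := by
  intro S
  induction S with
  | nil =>
    intro A h
    rw [resolve, List.append_nil] at h
    show Ik I A = 0
    unfold Ik
    rw [if_neg h]
  | cons s S ih =>
    obtain ⟨k, p⟩ := s
    intro A h
    cases p with
    | reg p =>
      refine ih (A ++ [(k, p)]) ?_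
      simpa [resolve] using h
    | dbl =>
      have h1 : ¬ IsKnot ((A ++ [(k, Piece.pos)]) ++ resolve S) := by simpa [resolve] using h
      have h2 : ¬ IsKnot ((A ++ [(k, Piece.neg)]) ++ resolve S) := by
        intro h3
        have h4 := (arc_sign k (resolve S) A 1 [0]).1 (by simpa [IsKnot] using h3)
        exact h (by simpa [resolve, IsKnot] using h4)
      show alt (Ik I) _ S - alt (Ik I) _ S = 0
      rw [ih _ h1, ih _ h2, sub_zero]

lemma alt_Ik {d : ℕ} {I : Diagram → ℚ} (hI : IsVassiliev d I) (S : SDiagram) (h : d < dbls S) :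
    alt (Ik I) [] S = 0 := by
  by_cases hk : IsKnot (resolve S)
  · rw [alt_Ik_knot I S [] (by simpa using hk)]
    exact hI.fin S hk h
  · exact alt_Ik_not I S [] (by simpa using hk)

/-- a regular diagram as a singular one -/
def rg (D : Diagram) : SDiagram := D.map fun s => (s.1, SPiece.reg s.2)

lemma alt_append {R : Type*} [Ring R] (J : Diagram → R) (T : SDiagram) : ∀ (S : SDiagram)
    (A : Diagram), alt J A (S ++ T) = alt (fun D => alt J D T) A S := by
  intro S
  induction S with
  | nil => intro A; rfl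
  | cons s S ih =>
    obtain ⟨k, p⟩ := s
    intro A
    cases p with
    | reg p => exact ih _
    | dbl =>
      show alt J _ (S ++ T) - alt J _ (S ++ T) = _
      rw [ih, ih]
      rfl

lemma alt_rg {R : Type*} [Ring R] (J : Diagram → R) : ∀ (D A : Diagram),
    alt J A (rg D) = J (A ++ D) := by
  intro D
  induction D with
  | nil => intro A; rw [List.append_nil]; rfl
  | cons s D ih =>
    intro A
    have h := ih (A ++ [s])
    rw [List.append_assoc] at h
    exact h

lemma resolve_append : ∀ (S T : SDiagram), resolve (S ++ T) = resolve S ++ resolve T := by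
  intro S
  induction S with
  | nil => intro T; rfl
  | cons s S ih =>
    obtain ⟨k, p⟩ := s
    intro T
    cases p with
    | reg p => simp only [List.cons_append, resolve, ih]
    | dbl => simp only [List.cons_append, resolve, ih]

lemma dbls_append : ∀ (S T : SDiagram), dbls (S ++ T) = dbls S + dbls T := by
  intro S
  induction S with
  | nil => intro T; simp [dbls]
  | cons s S ih =>
    obtain ⟨k, p⟩ := s
    intro T
    cases p with
    | reg p => simp only [List.cons_append, dbls, ih]
    | dbl => simp only [List.cons_append, dbls, ih]; omega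

lemma resolve_rg (D : Diagram) : resolve (rg D) = D := by
  induction D with
  | nil => rfl
  | cons s D ih =>
    show s :: resolve (rg D) = s :: D
    rw [ih]

lemma dbls_rg (D : Diagram) : dbls (rg D) = 0 := by
  induction D with
  | nil => rfl
  | cons s D ih => exact ih

lemma wf_sign (k : ℕ) (X : Diagram) (b : ℕ) : ∀ (A : Diagram) (a : ℕ),
    wf a (A ++ (k, .pos) :: X) b → wf a (A ++ (k, .neg) :: X) b := by
  intro A
  induction A with
  | nil => intro a h; exact h
  | cons s A ih =>
    obtain ⟨j, p⟩ := s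
    intro a h
    cases p with
    | cup => exact ⟨h.1, ih _ h.2⟩
    | cap => exact ⟨h.1, ih _ h.2⟩
    | pos => exact ⟨h.1, ih _ h.2⟩
    | neg => exact ⟨h.1, ih _ h.2⟩

lemma alt_congr {n : ℕ} {J J' : Diagram → ℚ} (h : ∀ D, wf 1 D n → J D = J' D) :
    ∀ (S : SDiagram) (A : Diagram), wf 1 (A ++ resolve S) n → alt J A S = alt J' A S := by
  intro S
  induction S with
  | nil =>
    intro A hA
    rw [resolve, List.append_nil] at hA
    exact h A hA
  | cons s S ih =>
    obtain ⟨k, p⟩ := s
    intro A hA
    cases p with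
    | reg p =>
      refine ih (A ++ [(k, p)]) ?_
      simpa [resolve] using hA
    | dbl =>
      have h1 : wf 1 ((A ++ [(k, Piece.pos)]) ++ resolve S) n := by simpa [resolve] using hA
      have h2 : wf 1 ((A ++ [(k, Piece.neg)]) ++ resolve S) n := by
        have := wf_sign k (resolve S) n A 1 (by simpa [resolve] using hA)
        simpa using this
      show alt J _ S - alt J _ S = alt J' _ S - alt J' _ S
      rw [ih _ h1, ih _ h2]

lemma alt_sub (J J' : Diagram → ℚ) : ∀ (S : SDiagram) (A : Diagram),
    alt (fun D => J D - J' D) A S = alt J A S - alt J' A S := by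
  intro S
  induction S with
  | nil => intro A; rfl
  | cons s S ih =>
    obtain ⟨k, p⟩ := s
    intro A
    cases p with
    | reg p => exact ih _
    | dbl =>
      show alt _ _ S - alt _ _ S = (alt J _ S - alt J _ S) - (alt J' _ S - alt J' _ S)
      rw [ih, ih]
      ring

section

variable {d : ℕ} {I : Diagram → ℚ} (hI : IsVassiliev d I) {m n : ℕ} (hm : m + 1 ≤ n)
  {B : Diagram} (hB : wf n B 1)

include hI in
lemma Ik_move {A B u v : Diagram} {n : ℕ} (hA : wf 1 A n) (hu : wf n u n) (hv : wf n v n)
    (hB : wf n B 1) (h : Move u v)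
    (harc : ∀ (c : ℕ) (L : List ℕ), L.length = n → (Arc c L (u ++ B) ↔ Arc c L (v ++ B))) :
    Ik I (A ++ (u ++ B)) = Ik I (A ++ (v ++ B)) := by
  have hk : IsKnot (A ++ (u ++ B)) ↔ IsKnot (A ++ (v ++ B)) :=
    arc_prefix harc A 1 [0] hA
  unfold Ik
  by_cases h1 : IsKnot (A ++ (u ++ B))
  · rw [if_pos h1, if_pos (hk.1 h1)]
    apply hI.inv _ _ h1 (hk.1 h1)
    rw [← List.append_assoc, ← List.append_assoc]
    exact Relation.EqvGen.rel _ _ (Step.mk A B h (wf_append (wf_append hA hu) hB)
      (wf_append (wf_append hA hv) hB))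
  · rw [if_neg h1, if_neg (fun h2 => h1 (hk.2 h2))]

include hI hm hB in
lemma Ik_step {A : Diagram} (hA : wf 1 A n) {L L' : List (Fin m × Bool)} (h : Red.Step L L') :
    Ik I (A ++ (dw L ++ B)) = Ik I (A ++ (dw L' ++ B)) := by
  cases h with
  | @not L₁ L₂ x b =>
    have hx : (x : ℕ) + 2 ≤ n := by have := x.2; omega
    have hA' : wf 1 (A ++ dw L₁) n := wf_append hA (wf_dw hm L₁)
    have hB' : wf n (dw L₂ ++ B) 1 := wf_append (wf_dw hm L₂) hB
    have e1 : A ++ (dw (L₁ ++ (x, b) :: (x, !b) :: L₂) ++ B) = (A ++ dw L₁) ++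
        ([((x : ℕ), if b then Piece.pos else Piece.neg),
          ((x : ℕ), if (!b) then Piece.pos else Piece.neg)] ++ (dw L₂ ++ B)) := by
      simp [dw]
    have e2 : A ++ (dw (L₁ ++ L₂) ++ B) = (A ++ dw L₁) ++ ([] ++ (dw L₂ ++ B)) := by
      simp [dw]
    rw [e1, e2]
    refine Ik_move hI hA' ?_ rfl hB' ?_ ?_
    · cases b
      · exact ⟨hx, hx, rfl⟩
      · exact ⟨hx, hx, rfl⟩
    · cases b
      · exact Move.r2np x
      · exact Move.r2pn x
    · intro c L hL
      exact arc_r2 hx b (!b) c L hL _

include hI hm hB in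
lemma Ik_red {A : Diagram} (hA : wf 1 A n) {L L' : List (Fin m × Bool)} (h : Red L L') :
    Ik I (A ++ (dw L ++ B)) = Ik I (A ++ (dw L' ++ B)) := by
  induction h with
  | refl => rfl
  | tail _ h2 ih => rw [ih, Ik_step hI hm hB hA h2]

/-- the function on the free group -/
noncomputable def ph (I : Diagram → ℚ) (B : Diagram) {m : ℕ} (A : Diagram)
    (h : FreeGroup (Fin m)) : ℚ := Ik I (A ++ (dw h.toWord ++ B))

include hI hm hB in
lemma ph_mk {A : Diagram} (hA : wf 1 A n) (L : List (Fin m × Bool)) :
    ph I B A (FreeGroup.mk L) = Ik I (A ++ (dw L ++ B)) := by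
  unfold ph
  rw [FreeGroup.toWord_mk]
  exact (Ik_red hI hm hB hA FreeGroup.reduce.red).symm

include hI hm hB in
lemma ph_mul {A : Diagram} (hA : wf 1 A n) (L : List (Fin m × Bool)) (h : FreeGroup (Fin m)) :
    ph I B A (FreeGroup.mk L * h) = ph I B (A ++ dw L) h := by
  have e : FreeGroup.mk L * h = FreeGroup.mk (L ++ h.toWord) := by
    conv_lhs => rw [← FreeGroup.mk_toWord (x := h)]
    rw [FreeGroup.mul_mk]
  rw [e, ph_mk hI hm hB hA, dw_append]
  unfold ph
  simp

include hI hm hB in
lemma ph_mul' {A : Diagram} (hA : wf 1 A n) (g h : FreeGroup (Fin m)) :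
    ph I B A (g * h) = ph I B (A ++ dw g.toWord) h := by
  have := ph_mul hI hm hB hA g.toWord h
  rwa [FreeGroup.mk_toWord] at this

include hI hm hB in
theorem ph_Iv {A : Diagram} (hA : wf 1 A n) : ph I B A ∈ Iv m := by
  -- exchange of two words related by a move
  have key : ∀ (La Lb : List (Fin m × Bool)), Move (dw La) (dw Lb) →
      (∀ (c : ℕ) (L : List ℕ) (X : Diagram), L.length = n →
        (Arc c L (dw La ++ X) ↔ Arc c L (dw Lb ++ X))) →
      ∀ g h : FreeGroup (Fin m), ph I B A (g * (FreeGroup.mk La * (FreeGroup.mk Lb)⁻¹) * h) =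
        ph I B A (g * h) := by
    intro La Lb hM harc g h
    have hA' : wf 1 (A ++ dw g.toWord) n := wf_append hA (wf_dw hm _)
    have e1 : g * (FreeGroup.mk La * (FreeGroup.mk Lb)⁻¹) * h =
        g * (FreeGroup.mk La * ((FreeGroup.mk Lb)⁻¹ * h)) := by group
    have e2 : g * h = g * (FreeGroup.mk Lb * ((FreeGroup.mk Lb)⁻¹ * h)) := by group
    rw [e1, e2, ph_mul' hI hm hB hA, ph_mul' hI hm hB hA g, ph_mul hI hm hB hA',
      ph_mul hI hm hB hA']
    unfold ph
    rw [List.append_assoc (A ++ dw g.toWord), List.append_assoc (A ++ dw g.toWord)]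
    exact Ik_move hI hA' (wf_dw hm _) (wf_dw hm _) (wf_append (wf_dw hm _) hB) hM
      fun c L hL => harc c L _ hL
  intro g h ρ hρ
  rcases hρ with ⟨i, j, hij, rfl⟩ | ⟨i, j, hij, rfl⟩
  · have hj : (i : ℕ) + 3 ≤ n := by have := j.2; omega
    refine key [(i, true), (j, true), (i, true)] [(j, true), (i, true), (j, true)] ?_ ?_ g h
    · simp only [dw, List.map_cons, List.map_nil, if_true, ← hij]
      exact Move.r3 i
    · intro c L X hL
      simp only [dw, List.map_cons, List.map_nil, if_true, ← hij]
      exact arc_r3 hj c L hL X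
  · have hj : (j : ℕ) + 2 ≤ n := by have := j.2; omega
    refine key [(i, true), (j, true)] [(j, true), (i, true)] ?_ ?_ g h
    · simp only [dw, List.map_cons, List.map_nil, if_true]
      exact Move.far i j .pos .pos hij
    · intro c L X hL
      simp only [dw, List.map_cons, List.map_nil, if_true]
      exact arc_far hij hj true true c L hL X

include hI hm hB in
lemma alt_V : ∀ (r : ℕ) (S : SDiagram), wf 1 (resolve S) n → d + 1 ≤ dbls S + r →
    (fun h : FreeGroup (Fin m) => alt (fun D => ph I B D h) [] S) ∈ V m r := by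
  intro r
  induction r with
  | zero =>
    intro S _ hd h
    show alt (fun D => ph I B D h) [] S = 0
    have e : (fun D => ph I B D h) = fun D => alt (Ik I) D (rg (dw h.toWord ++ B)) := by
      funext D
      rw [alt_rg]
      rfl
    rw [e, ← alt_append]
    refine alt_Ik hI _ ?_
    rw [dbls_append, dbls_rg]
    omega
  | succ r ih =>
    intro S hS hd g k
    have hk : (k : ℕ) + 2 ≤ n := by have := k.2; omega
    have h1 := ih (S ++ (rg (dw g.toWord) ++ [((k : ℕ), SPiece.dbl)]))
      (by
        rw [resolve_append, resolve_append, resolve_rg]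
        exact wf_append hS (wf_append (wf_dw hm _) ⟨hk, rfl⟩))
      (by
        rw [dbls_append, dbls_append, dbls_rg]
        show d + 1 ≤ dbls S + (0 + (0 + 1)) + r
        omega)
    have e : (fun h : FreeGroup (Fin m) => alt (fun D => ph I B D (g * of k * h)) [] S -
          alt (fun D => ph I B D (g * (of k)⁻¹ * h)) [] S) =
        fun h => alt (fun D => ph I B D h) [] (S ++ (rg (dw g.toWord) ++ [((k : ℕ), SPiece.dbl)])) := by
      funext h
      rw [alt_append, ← alt_sub]
      refine alt_congr (n := n) ?_ S [] hS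
      intro D hD
      rw [alt_append, alt_rg]
      show _ = ph I B (D ++ dw g.toWord ++ [((k : ℕ), Piece.pos)]) h -
        ph I B (D ++ dw g.toWord ++ [((k : ℕ), Piece.neg)]) h
      have hD' : wf 1 (D ++ dw g.toWord) n := wf_append hD (wf_dw hm _)
      rw [mul_assoc, mul_assoc, ph_mul' hI hm hB hD, ph_mul' hI hm hB hD g]
      have e1 := ph_mul hI hm hB hD' [(k, true)] h
      have e2 := ph_mul hI hm hB hD' [(k, false)] h
      have e3 : (FreeGroup.mk [(k, false)] : FreeGroup (Fin m)) = (of k)⁻¹ := rfl
      have e4 : (FreeGroup.mk [(k, true)] : FreeGroup (Fin m)) = of k := rfl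
      rw [e4] at e1
      rw [e3] at e2
      rw [e1, e2]
      rfl
    rw [e]
    exact h1

include hI hm hB in
theorem ph_V {A : Diagram} (hA : wf 1 A n) : ph I B A ∈ V m (d + 1) := by
  have h := alt_V hI hm hB (d + 1) (rg A) (by rw [resolve_rg]; exact hA) (by rw [dbls_rg]; omega)
  have e : (fun h : FreeGroup (Fin m) => alt (fun D => ph I B D h) [] (rg A)) = ph I B A := by
    funext h
    rw [alt_rg]
    rfl
  rw [e] at h
  exact h

end

end Pool.Agent.Helper87.BT
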