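import Pool.Agent.Helper77.ST.PPoly
import Pool.Agent.Helper77.ST.PNoe
import Pool.Agent.Helper87.BT.Fun

/-!
# Vassiliev invariants of a pattern are polynomials in the exponents, on residue classes
-/

namespace Pool.Agent.Helper87.BT

open Pool.Agent.Helper9.Kashaev (Piece Diagram)
open Pool.Agent.Helper77.ST
open FreeGroup

lemma lift_word {m : ℕ} : ∀ (w : List (ℕ × Bool)), (∀ x ∈ w, x.1 < m) →
    ∃ W : List (Fin m × Bool), W.map (fun x => ((x.1 : ℕ), x.2)) = w := by
  intro w
  induction w with
  | nil => intro _; exact ⟨[], rfl⟩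
  | cons x w ih =>
    intro h
    obtain ⟨W, hW⟩ := ih fun y hy => h y (List.mem_cons_of_mem _ hy)
    refine ⟨(⟨x.1, h x (List.mem_cons_self ..)⟩, x.2) :: W, ?_⟩
    simp [hW]

lemma word_lift {m : ℕ} (W : List (Fin m × Bool)) :
    word (W.map (fun x => ((x.1 : ℕ), x.2))) = dw W := by
  simp [word, dw]

lemma inv_lift {m : ℕ} (W : List (Fin m × Bool)) :
    inv (W.map (fun x => ((x.1 : ℕ), x.2))) =
      (FreeGroup.invRev W).map (fun x => ((x.1 : ℕ), x.2)) := by
  simp [inv, FreeGroup.invRev]

lemma dw_rep {m : ℕ} (W : List (Fin m × Bool)) (r : ℕ) :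
    (List.replicate r (dw W)).flatten = dw (List.replicate r W).flatten := by
  induction r with
  | zero => rfl
  | succ r ih => rw [List.replicate_succ, List.replicate_succ, List.flatten_cons,
      List.flatten_cons, ih, dw_append]

lemma mk_rep {m : ℕ} (W : List (Fin m × Bool)) (r : ℕ) :
    (FreeGroup.mk (List.replicate r W).flatten : FreeGroup (Fin m)) = FreeGroup.mk W ^ r := by
  induction r with
  | zero => rfl
  | succ r ih => rw [List.replicate_succ, List.flatten_cons, ← FreeGroup.mul_mk, ih, pow_succ']

lemma pw_lift {m : ℕ} (W : List (Fin m × Bool)) (a : ℤ) :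
    ∃ U : List (Fin m × Bool), pw (W.map (fun x => ((x.1 : ℕ), x.2))) a = dw U ∧
      (FreeGroup.mk U : FreeGroup (Fin m)) = FreeGroup.mk W ^ a := by
  unfold pw
  by_cases h : 0 ≤ a
  · refine ⟨(List.replicate a.natAbs W).flatten, ?_, ?_⟩
    · rw [if_pos h, word_lift, dw_rep]
    · rw [mk_rep]
      conv_rhs => rw [← Int.natAbs_of_nonneg h]
      rw [zpow_natCast]
  · refine ⟨(List.replicate a.natAbs (FreeGroup.invRev W)).flatten, ?_, ?_⟩
    · rw [if_neg h, inv_lift, word_lift, dw_rep]
    · rw [mk_rep, ← FreeGroup.inv_mk]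
      have e : a = -(a.natAbs : ℤ) := by omega
      conv_rhs => rw [e]
      rw [zpow_neg, zpow_natCast, inv_pow]

lemma wf_word {n : ℕ} (w : List (ℕ × Bool)) (hw : ∀ x ∈ w, x.1 + 2 ≤ n) : wf n (word w) n := by
  induction w with
  | nil => rfl
  | cons x w ih =>
    obtain ⟨k, b⟩ := x
    have hk := hw (k, b) (List.mem_cons_self ..)
    have h := ih fun y hy => hw y (List.mem_cons_of_mem _ hy)
    cases b
    · exact ⟨hk, h⟩
    · exact ⟨hk, h⟩

lemma wf_rep {n : ℕ} {D : Diagram} (h : wf n D n) (r : ℕ) :
    wf n (List.replicate r D).flatten n := by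
  induction r with
  | zero => rfl
  | succ r ih =>
    rw [List.replicate_succ, List.flatten_cons]
    exact wf_append h ih

lemma wf_pw {n : ℕ} (w : List (ℕ × Bool)) (hw : ∀ x ∈ w, x.1 + 2 ≤ n) (a : ℤ) :
    wf n (pw w a) n := by
  unfold pw
  refine wf_rep ?_ _
  split_ifs
  · exact wf_word w hw
  · refine wf_word _ fun x hx => ?_
    simp only [inv, List.mem_reverse, List.mem_map] at hx
    obtain ⟨y, hy, rfl⟩ := hx
    exact hw y hy

lemma wf_dia : ∀ (S : List Letter) (n m : ℕ), wfL n S m → ∀ a : ℕ → ℤ, wf n (dia S a) m := by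
  intro S
  induction S with
  | nil => intro n m h a; exact h
  | cons s S ih =>
    intro n m h a
    cases s with
    | cup k => exact ⟨h.1, ih _ _ h.2 _⟩
    | cap k => exact ⟨h.1, ih _ _ h.2 _⟩
    | braid w => exact wf_append (wf_pw w h.1 _) (ih _ _ h.2 _)

lemma alt_const (d : ℕ) (c : ℚ) :
    ∑ k ∈ Finset.range (d + 2), (-1 : ℚ) ^ k * (d + 1).choose k * c = 0 := by
  rw [← Finset.sum_mul]
  have h := Int.alternating_sum_range_choose_of_ne (n := d + 1) (by omega)
  have h2 : ∑ k ∈ Finset.range (d + 2), (-1 : ℚ) ^ k * (d + 1).choose k = 0 := by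
    have := congrArg (fun z : ℤ => (z : ℚ)) h
    push_cast at this
    exact this
  rw [h2, zero_mul]

/-- differences with respect to one exponent -/
theorem ctx_diff {d : ℕ} {I : Diagram → ℚ} (hI : IsVassiliev d I) {A B : Diagram} {n : ℕ}
    (hA : wf 1 A n) (hB : wf n B 1) (w : List (ℕ × Bool)) (hw : ∀ x ∈ w, x.1 + 2 ≤ n) (N : ℕ)
    (hN : Nm (n - 1) ∣ N) (ρ y : ℤ) :
    ∑ k ∈ Finset.range (d + 2), (-1 : ℚ) ^ k * (d + 1).choose k *
      Ik I (A ++ (pw w (ρ + N * (y - k)) ++ B)) = 0 := by
  rcases Nat.eq_zero_or_pos n with hn | hn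
  · -- the word is empty
    have hw0 : w = [] := by
      rcases w with _ | ⟨x, w⟩
      · rfl
      · have := hw x (List.mem_cons_self ..)
        omega
    subst hw0
    have e : ∀ a : ℤ, pw [] a = [] := by
      intro a
      unfold pw
      have : word (if 0 ≤ a then [] else inv []) = [] := by split_ifs <;> rfl
      rw [this]
      simp
    simp only [e]
    exact alt_const d _
  · have hm : (n - 1) + 1 ≤ n := by omega
    obtain ⟨W, hW⟩ := lift_word (m := n - 1) w (fun x hx => by have := hw x hx; omega)
    have hval : ∀ a : ℤ, Ik I (A ++ (pw w a ++ B)) = ph I B A (FreeGroup.mk W ^ a) := by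
      intro a
      obtain ⟨U, hU, hU'⟩ := pw_lift W a
      rw [hW] at hU
      rw [hU, ← hU', ph_mk hI hm hB hA]
    have h := diff_zero (pow_mem (FreeGroup.mk W) hN) d (ph I B A) (ph_V hI hm hB hA)
      (ph_Iv hI hm hB hA) (FreeGroup.mk W ^ ρ) y
    rw [← h]
    refine Finset.sum_congr rfl fun k _ => ?_
    rw [hval]
    congr 2
    rw [← zpow_natCast, ← zpow_mul, ← zpow_add, add_comm]

lemma update_shift (a : ℕ → ℤ) (i : ℕ) (x : ℤ) :
    (fun j => Function.update a (i + 1) x (j + 1)) = Function.update (fun j => a (j + 1)) i x := by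
  funext j
  by_cases h : j = i
  · subst h; simp
  · rw [Function.update_of_ne h, Function.update_of_ne (by omega)]

lemma update_shift0 (a : ℕ → ℤ) (x : ℤ) :
    (fun j => Function.update a 0 x (j + 1)) = fun j => a (j + 1) := by
  funext j
  rw [Function.update_of_ne (by omega)]

theorem split : ∀ (S : List Letter) (n m : ℕ), wfL n S m → ∀ (a : ℕ → ℤ) (i : ℕ),
    (∀ x, dia S (Function.update a i x) = dia S a) ∨
    ∃ (A B : Diagram) (k : ℕ) (w : List (ℕ × Bool)), wf n A k ∧ wf k B m ∧
      (∀ x ∈ w, x.1 + 2 ≤ k) ∧ k ≤ n + 2 * S.length ∧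
      ∀ x, dia S (Function.update a i x) = A ++ (pw w x ++ B) := by
  intro S
  induction S with
  | nil => intro n m _ a i; left; intro x; rfl
  | cons s S ih =>
    intro n m h a i
    cases s with
    | cup k =>
      cases i with
      | zero =>
        left
        intro x
        show (k, Piece.cup) :: dia S (fun j => Function.update a 0 x (j + 1)) = _
        rw [update_shift0]
        rfl
      | succ i =>
        rcases ih _ _ h.2 (fun j => a (j + 1)) i with h1 | ⟨A, B, l, w, h1, h2, h3, h4, h5⟩
        · left
          intro x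
          show (k, Piece.cup) :: dia S (fun j => Function.update a (i + 1) x (j + 1)) = _
          rw [update_shift, h1]
          rfl
        · right
          refine ⟨(k, .cup) :: A, B, l, w, ⟨h.1, h1⟩, h2, h3, ?_, fun x => ?_⟩
          · rw [List.length_cons]; omega
          · show (k, Piece.cup) :: dia S (fun j => Function.update a (i + 1) x (j + 1)) = _
            rw [update_shift, h5]
            rfl
    | cap k =>
      cases i with
      | zero =>
        left
        intro x
        show (k, Piece.cap) :: dia S (fun j => Function.update a 0 x (j + 1)) = _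
        rw [update_shift0]
        rfl
      | succ i =>
        rcases ih _ _ h.2 (fun j => a (j + 1)) i with h1 | ⟨A, B, l, w, h1, h2, h3, h4, h5⟩
        · left
          intro x
          show (k, Piece.cap) :: dia S (fun j => Function.update a (i + 1) x (j + 1)) = _
          rw [update_shift, h1]
          rfl
        · right
          refine ⟨(k, .cap) :: A, B, l, w, ⟨h.1, h1⟩, h2, h3, ?_, fun x => ?_⟩
          · rw [List.length_cons]; omega
          · show (k, Piece.cap) :: dia S (fun j => Function.update a (i + 1) x (j + 1)) = _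
            rw [update_shift, h5]
            rfl
    | braid w =>
      cases i with
      | zero =>
        right
        refine ⟨[], dia S (fun j => a (j + 1)), n, w, rfl, wf_dia _ _ _ h.2 _, h.1, by omega,
          fun x => ?_⟩
        show pw w (Function.update a 0 x 0) ++ dia S (fun j => Function.update a 0 x (j + 1)) = _
        rw [update_shift0, Function.update_self]
        rfl
      | succ i =>
        rcases ih _ _ h.2 (fun j => a (j + 1)) i with h1 | ⟨A, B, l, w', h1, h2, h3, h4, h5⟩
        · left
          intro x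
          show pw w (Function.update a (i + 1) x 0) ++
            dia S (fun j => Function.update a (i + 1) x (j + 1)) = _
          rw [update_shift, h1, Function.update_of_ne (by omega)]
          rfl
        · right
          refine ⟨pw w (a 0) ++ A, B, l, w', wf_append (wf_pw w h.1 _) h1, h2, h3, ?_,
            fun x => ?_⟩
          · rw [List.length_cons]; omega
          · show pw w (Function.update a (i + 1) x 0) ++
              dia S (fun j => Function.update a (i + 1) x (j + 1)) = _
            rw [update_shift, h5, Function.update_of_ne (by omega), List.append_assoc]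

/-- extension by zero -/
def ext {L : ℕ} (v : Fin L → ℤ) (i : ℕ) : ℤ := if h : i < L then v ⟨i, h⟩ else 0

lemma ext_update {L : ℕ} (v : Fin L → ℤ) (i : Fin L) (x : ℤ) :
    ext (Function.update v i x) = Function.update (ext v) i x := by
  funext j
  by_cases h : j = i
  · subst h
    simp [ext]
  · rw [Function.update_of_ne h]
    unfold ext
    split_ifs with h1
    · rw [Function.update_of_ne]
      intro h2
      exact h (congrArg Fin.val h2)
    · rfl

theorem exists_poly {d : ℕ} {I : Diagram → ℚ} (hI : IsVassiliev d I) (S : List Letter)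
    (hS : wfL 1 S 1) (N : ℕ) (hN : ∀ m ≤ 1 + 2 * S.length, Nm m ∣ N) {L : ℕ} (ρ : Fin L → ℤ) :
    ∃ p : MvPolynomial (Fin L) ℚ, ∀ y : Fin L → ℤ,
      Ik I (dia S (ext fun i => ρ i + N * y i)) = MvPolynomial.eval (fun i => (y i : ℚ)) p := by
  refine poly_of_diff (fun y => Ik I (dia S (ext fun i => ρ i + N * y i))) d fun y i => ?_
  have e : ∀ x : ℤ, (ext fun j => ρ j + N * Function.update y i x j) =
      Function.update (ext fun j => ρ j + N * y j) i (ρ i + N * x) := by
    intro x
    rw [← ext_update]
    congr 1
    funext j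
    by_cases h : j = i
    · subst h; simp
    · rw [Function.update_of_ne h, Function.update_of_ne h]
  simp only [e]
  rcases split S 1 1 hS (ext fun j => ρ j + N * y j) i with h | ⟨A, B, k, w, h1, h2, h3, h4, h5⟩
  · simp only [h]
    exact alt_const d _
  · simp only [h5]
    exact ctx_diff hI h1 h2 w h3 N (hN _ (by omega)) (ρ i) (y i)

end Pool.Agent.Helper87.BT
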